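import Mathlib

set_option autoImplicit false

namespace Pool.Agent.Results.MP_ee8878_co.NoTriang

/-- the real affine map u ↦ A u + b -/
def act {d : ℕ} (A : Matrix (Fin d) (Fin d) ℤ) (b : Fin d → ℤ) (u : Fin d → ℝ) : Fin d → ℝ :=
  fun i => ∑ j, (A i j : ℝ) * u j + (b i : ℝ)

def AA : DihedralGroup 2 → Matrix (Fin 6) (Fin 6) ℤ
  | .r i => if i = 0 then 1 else
      !![-1,-1,-1,0,0,0; 0,0,1,0,0,0; 0,1,0,0,0,0; 0,0,0,1,0,0; 0,0,0,0,1,0; 0,0,0,0,0,1]
  | .sr i => if i = 0 then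
      !![0,0,1,0,0,0; -1,-1,-1,0,0,0; 1,0,0,0,0,0; 0,0,0,1,0,0; 0,0,0,0,1,0; 0,0,0,0,0,1]
    else !![0,1,0,0,0,0; 1,0,0,0,0,0; -1,-1,-1,0,0,0; 0,0,0,1,0,0; 0,0,0,0,1,0; 0,0,0,0,0,1]

def bb : DihedralGroup 2 → Fin 6 → ℤ
  | .r i => if i = 0 then 0 else ![1,0,0,0,0,0]
  | .sr i => if i = 0 then ![0,1,0,0,0,0] else ![0,0,1,0,0,0]

def φ : DihedralGroup 2 →* Matrix (Fin 6) (Fin 6) ℤ :=
  ⟨⟨AA, by decide +kernel⟩, by decide +kernel⟩

lemma cases4 (g : DihedralGroup 2) : g = .r 0 ∨ g = .r 1 ∨ g = .sr 0 ∨ g = .sr 1 := by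
  revert g; decide

lemma act0 (u : Fin 6 → ℝ) : act (φ (.r 0)) (bb (.r 0)) u = u := by
  have h1 : φ (.r 0) = 1 := by decide +kernel
  have h2 : bb (.r 0) = 0 := by decide +kernel
  rw [h1, h2]
  ext i; simp [act, Matrix.one_apply]
lemma act1 (u : Fin 6 → ℝ) :
    act (φ (.r 1)) (bb (.r 1)) u = ![1 - u 0 - u 1 - u 2, u 2, u 1, u 3, u 4, u 5] := by
  have : (1 : ZMod 2) ≠ 0 := by decide
  ext i; fin_cases i <;> simp [act, φ, AA, bb, Fin.sum_univ_succ, this]; ring
lemma act2 (u : Fin 6 → ℝ) :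
    act (φ (.sr 0)) (bb (.sr 0)) u = ![u 2, 1 - u 0 - u 1 - u 2, u 0, u 3, u 4, u 5] := by
  ext i; fin_cases i <;> simp [act, φ, AA, bb, Fin.sum_univ_succ]; ring
lemma act3 (u : Fin 6 → ℝ) :
    act (φ (.sr 1)) (bb (.sr 1)) u = ![u 1, u 0, 1 - u 0 - u 1 - u 2, u 3, u 4, u 5] := by
  have : (1 : ZMod 2) ≠ 0 := by decide
  ext i; fin_cases i <;> simp [act, φ, AA, bb, Fin.sum_univ_succ, this]; ring

lemma act_act (g : DihedralGroup 2) (u : Fin 6 → ℝ) :
    act (φ g) (bb g) (act (φ g) (bb g) u) = u := by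
  rcases cases4 g with rfl | rfl | rfl | rfl
  · rw [act0, act0]
  · rw [act1, act1]; ext i; fin_cases i <;> simp; ring
  · rw [act2, act2]; ext i; fin_cases i <;> simp; ring
  · rw [act3, act3]; ext i; fin_cases i <;> simp; ring

lemma act_combo {d : ℕ} (A : Matrix (Fin d) (Fin d) ℤ) (b : Fin d → ℤ) (u w : Fin d → ℝ)
    (s t : ℝ) (h : s + t = 1) : act A b (s • u + t • w) = s • act A b u + t • act A b w := by
  ext i
  simp only [act, Pi.add_apply, Pi.smul_apply, smul_eq_mul, mul_add, Finset.sum_add_distrib,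
    Finset.mul_sum]
  have e1 : ∀ j, (A i j : ℝ) * (s * u j) = s * (A i j * u j) := fun j => by ring
  have e2 : ∀ j, (A i j : ℝ) * (t * w j) = t * (A i j * w j) := fun j => by ring
  simp only [e1, e2]
  linear_combination (-(b i : ℝ)) * h

def pt : Fin 4 → Fin 3 → ℤ := ![![0,0,0], ![1,0,0], ![0,1,0], ![0,0,1]]
def V (p : Fin 4 × Fin 4) : Fin 6 → ℤ :=
  ![pt p.1 0, pt p.1 1, pt p.1 2, pt p.2 0, pt p.2 1, pt p.2 2]
def S : Finset (Fin 6 → ℤ) := Finset.univ.image V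
def SR : Set (Fin 6 → ℝ) := (fun w : Fin 6 → ℤ => fun k => (w k : ℝ)) '' (S : Set (Fin 6 → ℤ))

def Q (u : Fin 6 → ℝ) : Prop :=
  0 ≤ u 0 ∧ 0 ≤ u 1 ∧ 0 ≤ u 2 ∧ u 0 + u 1 + u 2 ≤ 1 ∧ 0 ≤ u 3 ∧ 0 ≤ u 4 ∧ 0 ≤ u 5 ∧
    u 3 + u 4 + u 5 ≤ 1

lemma hull_eq : convexHull ℝ SR = {u | Q u} := by
  apply Set.Subset.antisymm
  · refine convexHull_min ?_ ?_
    · rintro _ ⟨w, hw, rfl⟩
      simp only [S, Finset.coe_image, Finset.coe_univ, Set.image_univ, Set.mem_range] at hw
      obtain ⟨⟨i, j⟩, rfl⟩ := hw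
      fin_cases i <;> fin_cases j <;> simp [Q, V, pt]
    · rintro x ⟨h1, h2, h3, h4, h5, h6, h7, h8⟩ y ⟨g1, g2, g3, g4, g5, g6, g7, g8⟩ a b ha hb hab
      simp only [Q, Set.mem_ofPred_eq, Pi.add_apply, Pi.smul_apply, smul_eq_mul]
      refine ⟨by positivity, by positivity, by positivity, by nlinarith, by positivity,
        by positivity, by positivity, by nlinarith⟩
  · rintro u ⟨h1, h2, h3, h4, h5, h6, h7, h8⟩
    let x : Fin 4 → ℝ := ![1 - u 0 - u 1 - u 2, u 0, u 1, u 2]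
    let y : Fin 4 → ℝ := ![1 - u 3 - u 4 - u 5, u 3, u 4, u 5]
    have hx : ∀ i, 0 ≤ x i := by intro i; fin_cases i <;> simp [x] <;> linarith
    have hy : ∀ i, 0 ≤ y i := by intro i; fin_cases i <;> simp [y] <;> linarith
    have : ∑ p : Fin 4 × Fin 4, (x p.1 * y p.2) • (fun k => (V p k : ℝ)) = u := by
      ext k
      simp only [Finset.sum_apply, Pi.smul_apply, smul_eq_mul, Fintype.sum_prod_type,
        Fin.sum_univ_succ]
      fin_cases k <;> simp [x, y, V, pt] <;> ring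
    rw [← this]
    refine (convex_convexHull ℝ SR).sum_mem (fun p _ => mul_nonneg (hx _) (hy _)) ?_ ?_
    · simp only [Fintype.sum_prod_type, Fin.sum_univ_succ]
      simp [x, y]
      ring
    · intro p _
      exact subset_convexHull ℝ SR ⟨V p, by simp [S], rfl⟩

lemma interior_ne : (interior {u | Q u}).Nonempty := by
  let U : Set (Fin 6 → ℝ) := {u | 0 < u 0 ∧ 0 < u 1 ∧ 0 < u 2 ∧ u 0 + u 1 + u 2 < 1 ∧ 0 < u 3 ∧
    0 < u 4 ∧ 0 < u 5 ∧ u 3 + u 4 + u 5 < 1}
  have hU : IsOpen U := by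
    simp only [U, Set.ofPred_and]
    repeat' apply IsOpen.inter
    all_goals exact isOpen_lt (by fun_prop) (by fun_prop)
  have hsub : U ⊆ {u | Q u} := by
    rintro u ⟨h1, h2, h3, h4, h5, h6, h7, h8⟩
    exact ⟨h1.le, h2.le, h3.le, h4.le, h5.le, h6.le, h7.le, h8.le⟩
  refine ⟨fun _ => 1 / 100, interior_maximal hsub hU ?_⟩
  simp only [U, Set.mem_ofPred_eq]
  norm_num

lemma act_Q (g : DihedralGroup 2) (u : Fin 6 → ℝ) (hu : Q u) : Q (act (φ g) (bb g) u) := by
  obtain ⟨h1, h2, h3, h4, h5, h6, h7, h8⟩ := hu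
  rcases cases4 g with rfl | rfl | rfl | rfl
  · rw [act0]; exact ⟨h1, h2, h3, h4, h5, h6, h7, h8⟩
  · rw [act1]; simp [Q, *]; linarith
  · rw [act2]; simp [Q, *]; constructor <;> linarith
  · rw [act3]; simp [Q, *]; constructor <;> linarith

lemma ex_tr : ∃ τ : ℝ, 0 < τ ∧ τ < 1 / 3 ∧ Transcendental ℚ τ := by
  by_contra h
  push Not at h
  have hs : Set.Ioo (0 : ℝ) (1 / 3) ⊆ {x | IsAlgebraic ℚ x} := by
    intro x hx
    have := h x hx.1 hx.2
    simpa [Transcendental] using this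
  have := ((Algebraic.countable ℚ ℝ).mono hs).measure_zero MeasureTheory.volume
  simp at this

theorem result : ∃ (d : ℕ) (G : Type) (_ : Group G) (_ : Fintype G)
    (A : G →* Matrix (Fin d) (Fin d) ℤ) (b : G → Fin d → ℤ) (S : Finset (Fin d → ℤ))
    (P : Set (Fin d → ℝ)),
    (∀ g h, b (g * h) = (A g).mulVec (b h) + b g) ∧
    P = convexHull ℝ ((fun w : Fin d → ℤ => fun k => (w k : ℝ)) '' (S : Set (Fin d → ℤ))) ∧
    (interior P).Nonempty ∧
    (∀ g, act (A g) (b g) '' P = P) ∧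
    ¬ ∃ K : Geometry.SimplicialComplex ℝ (Fin d → ℝ), K.space = P ∧
      (∀ s ∈ K.faces, ∀ v ∈ s, ∀ i, ∃ z : ℤ, v i = (z : ℝ) / (Monoid.exponent G : ℝ)) ∧
      (∀ g, ∀ s ∈ K.faces, ∃ t ∈ K.faces,
        act (A g) (b g) '' (s : Set (Fin d → ℝ)) = (t : Set (Fin d → ℝ))) := by
  classical
  refine ⟨6, DihedralGroup 2, inferInstance, inferInstance, φ, bb, S, {u | Q u},
    by decide +kernel, hull_eq.symm, interior_ne, ?_, ?_⟩
  · intro g
    apply Set.Subset.antisymm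
    · rintro _ ⟨u, hu, rfl⟩; exact act_Q g u hu
    · intro u hu; exact ⟨_, act_Q g u hu, act_act g u⟩
  rintro ⟨K, hK, hv, hinv⟩
  rw [IsKleinFour.exponent_two] at hv
  obtain ⟨τ, t0, t1, ht⟩ := ex_tr
  let x : Fin 6 → ℝ := ![1 / 4, 1 / 4, 1 / 4, τ, τ ^ 2, τ ^ 3]
  have hxP : x ∈ K.space := by
    rw [hK]
    simp only [Q, x, Set.mem_ofPred_eq]
    simp
    refine ⟨by norm_num, t0.le, by positivity, by positivity, ?_⟩
    have a : τ ^ 2 ≤ τ := by nlinarith
    have b : τ ^ 3 ≤ τ := by nlinarith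
    linarith
  have hfix : ∀ g, act (φ g) (bb g) x = x := by
    intro g
    rcases cases4 g with rfl | rfl | rfl | rfl
    · exact act0 x
    · rw [act1]; ext i; fin_cases i <;> simp [x]; norm_num
    · rw [act2]; ext i; fin_cases i <;> simp [x]; norm_num
    · rw [act3]; ext i; fin_cases i <;> simp [x]; norm_num
  have hex : ∃ n, ∃ s ∈ K.faces, x ∈ convexHull ℝ (s : Set (Fin 6 → ℝ)) ∧ s.card = n := by
    obtain ⟨s, hs, hx⟩ := Geometry.SimplicialComplex.mem_space_iff.1 hxP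
    exact ⟨_, s, hs, hx, rfl⟩
  obtain ⟨s, hs, hxs, hcard⟩ := Nat.find_spec hex
  have hmin : ∀ t ∈ K.faces, x ∈ convexHull ℝ (t : Set (Fin 6 → ℝ)) → s.card ≤ t.card := by
    intro t ht hx
    rw [hcard]
    exact Nat.find_min' hex ⟨t, ht, hx, rfl⟩
  have hstab : ∀ g, ∀ v ∈ s, act (φ g) (bb g) v ∈ s := by
    intro g
    obtain ⟨t, ht, e⟩ := hinv g s hs
    have hxt : x ∈ convexHull ℝ (t : Set (Fin 6 → ℝ)) := by
      have : convexHull ℝ (s : Set (Fin 6 → ℝ)) ⊆
          {u | act (φ g) (bb g) u ∈ convexHull ℝ (t : Set (Fin 6 → ℝ))} := by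
        refine convexHull_min ?_ ?_
        · intro v hv
          exact subset_convexHull ℝ _ (e ▸ ⟨v, hv, rfl⟩)
        · intro u hu w hw a c ha hc hac
          simp only [Set.mem_ofPred_eq] at hu hw ⊢
          rw [act_combo _ _ _ _ _ _ hac]
          exact convex_convexHull ℝ _ hu hw ha hc hac
      have := this hxs
      rwa [Set.mem_ofPred_eq, hfix] at this
    have hi := K.inter_subset_convexHull hs ht ⟨hxs, hxt⟩
    rw [← Finset.coe_inter] at hi
    have hne : (s ∩ t).Nonempty := by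
      have := convexHull_nonempty_iff.1 ⟨x, hi⟩
      exact_mod_cast this
    have h1 := hmin _ (K.down_closed hs Finset.inter_subset_left hne) hi
    have h2 : s ∩ t = s := Finset.eq_of_subset_of_card_le Finset.inter_subset_left h1
    have h3 : t = s.image (act (φ g) (bb g)) := by
      apply Finset.coe_injective
      rw [Finset.coe_image, e]
    have h4 : t.card ≤ s.card := by rw [h3]; exact Finset.card_image_le
    have h5 : s = t := Finset.eq_of_subset_of_card_le (Finset.inter_eq_left.1 h2) h4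
    intro v hv
    rw [h5, h3]
    exact Finset.mem_image_of_mem _ hv
  have h7 : s.card ≤ 7 := by
    have := (K.indep hs).card_le_finrank_succ
    have h2 := Submodule.finrank_le (vectorSpan ℝ (Set.range ((↑) : s → Fin 6 → ℝ)))
    simp only [Fintype.card_coe, Module.finrank_fin_fun] at this h2
    omega
  choose! z hz using hv s hs
  let q : (Fin 6 → ℝ) → Fin 4 → ℚ := fun v => ![1, z v 3 / 2, z v 4 / 2, z v 5 / 2]
  have hq : ∀ g, ∀ v ∈ s, q (act (φ g) (bb g) v) = q v := by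
    intro g v hv
    have hw := hstab g v hv
    have e : ∀ i : Fin 6, act (φ g) (bb g) v i = v i → z (act (φ g) (bb g) v) i = z v i := by
      intro i hi
      rw [hz _ hw, hz _ hv] at hi
      have : ((z (act (φ g) (bb g) v) i : ℤ) : ℝ) = z v i := by
        push_cast at hi; linarith
      exact_mod_cast this
    have e3 : act (φ g) (bb g) v 3 = v 3 ∧ act (φ g) (bb g) v 4 = v 4 ∧
        act (φ g) (bb g) v 5 = v 5 := by
      rcases cases4 g with rfl | rfl | rfl | rfl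
      · rw [act0]; simp
      · rw [act1]; simp
      · rw [act2]; simp
      · rw [act3]; simp
    simp only [q, e 3 e3.1, e 4 e3.2.1, e 5 e3.2.2]
  have hmove : ∀ v ∈ s, ∃ g, act (φ g) (bb g) v ≠ v := by
    intro v hv
    by_contra h
    push Not at h
    have a1 := congrFun (h (.r 1)) 0
    have a2 := congrFun (h (.r 1)) 1
    have a3 := congrFun (h (.sr 1)) 0
    rw [act1] at a1 a2
    rw [act3] at a3
    simp at a1 a2 a3
    have a4 := hz v hv 0
    have : ((2 * z v 0 : ℤ) : ℝ) = (1 : ℤ) := by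
      push_cast at a4 ⊢; linarith
    have : 2 * z v 0 = 1 := by exact_mod_cast this
    omega
  have h3 : 2 * (s.image q).card ≤ s.card := by
    refine Finset.mul_card_image_le_card s 2 fun a ha => ?_
    obtain ⟨v, hv, rfl⟩ := Finset.mem_image.1 ha
    obtain ⟨g, hg⟩ := hmove v hv
    exact Finset.one_lt_card.2 ⟨act (φ g) (bb g) v, by simp [hstab g v hv, hq g v hv], v,
      by simp [hv], hg⟩
  have hlt : Submodule.span ℚ ((s.image q : Finset (Fin 4 → ℚ)) : Set (Fin 4 → ℚ)) < ⊤ := by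
    apply Submodule.lt_top_of_finrank_lt_finrank
    have := finrank_span_finset_le_card (R := ℚ) (s.image q)
    simp only [Set.finrank, Module.finrank_fin_fun] at this ⊢
    omega
  obtain ⟨ψ, hψ0, hψ⟩ := Submodule.exists_le_ker_of_lt_top _ hlt
  let c : Fin 4 → ℚ := fun i => ψ (fun j => if i = j then 1 else 0)
  have hc : ∀ y : Fin 4 → ℚ, ψ y = y 0 * c 0 + y 1 * c 1 + y 2 * c 2 + y 3 * c 3 := by
    intro y
    rw [LinearMap.pi_apply_eq_sum_univ, Fin.sum_univ_four]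
    rfl
  have hl : convexHull ℝ (s : Set (Fin 6 → ℝ)) ⊆
      {u | (c 0 : ℝ) + c 1 * u 3 + c 2 * u 4 + c 3 * u 5 = 0} := by
    refine convexHull_min ?_ ?_
    · intro v hv
      have h0 : ψ (q v) = 0 :=
        hψ (Submodule.subset_span (Finset.mem_coe.2 (Finset.mem_image_of_mem q hv)))
      rw [hc] at h0
      simp [q] at h0
      have h0' := congrArg (fun r : ℚ => (r : ℝ)) h0
      simp only [Set.mem_ofPred_eq, hz v hv 3, hz v hv 4, hz v hv 5]
      push_cast at h0' ⊢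
      linarith
    · intro u hu w hw a b ha hb hab
      simp only [Set.mem_ofPred_eq, Pi.add_apply, Pi.smul_apply, smul_eq_mul] at hu hw ⊢
      linear_combination a * hu + b * hw - (c 0 : ℝ) * hab
  have hx := hl hxs
  simp only [Set.mem_ofPred_eq, x] at hx
  simp at hx
  have hp := (transcendental_iff.1 ht)
    (Polynomial.C (c 0) + Polynomial.C (c 1) * Polynomial.X + Polynomial.C (c 2) * Polynomial.X ^ 2
      + Polynomial.C (c 3) * Polynomial.X ^ 3) (by simpa using hx)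
  have c0 := congrArg (fun p => Polynomial.coeff p 0) hp
  have c1 := congrArg (fun p => Polynomial.coeff p 1) hp
  have c2 := congrArg (fun p => Polynomial.coeff p 2) hp
  have c3 := congrArg (fun p => Polynomial.coeff p 3) hp
  simp [Polynomial.coeff_C, Polynomial.coeff_X, Polynomial.coeff_X_pow] at c0 c1 c2 c3
  apply hψ0
  ext1 i
  apply LinearMap.ext
  intro r
  simp [hc, c0, c1, c2, c3]

end Pool.Agent.Results.MP_ee8878_co.NoTriang
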